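import Pool.Agent.H72.AAP.Targets
import Mathlib.NumberTheory.Chebyshev

/-! Row HTI of the board `aap_modules` (MP_3cf473_nt): an inequality of Hall-Tenenbaum type. -/

set_option autoImplicit false

open Finset ArithmeticFunction

namespace Pool.Agent.H33.AAP

open Pool.Agent.H72.AAP

private theorem swap (g : ℕ → ℕ → ℝ) (x : ℕ) :
    ∑ n ∈ Icc 1 x, ∑ q ∈ n.divisors, g n q = ∑ m ∈ Icc 1 x, ∑ q ∈ Icc 1 (x / m), g (q * m) q := by
  rw [Finset.sum_sigma', Finset.sum_sigma']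
  refine Finset.sum_bij' (fun p _ => ⟨p.1 / p.2, p.2⟩) (fun p _ => ⟨p.2 * p.1, p.2⟩) ?_ ?_ ?_ ?_ ?_
  · rintro ⟨n, q⟩ h
    simp only [mem_sigma, mem_Icc, Nat.mem_divisors] at h ⊢
    obtain ⟨⟨h1, h2⟩, h3, h4⟩ := h
    obtain ⟨m, rfl⟩ := h3
    have hq : 0 < q := Nat.pos_of_ne_zero fun h => by simp [h] at h4
    have hm : 0 < m := Nat.pos_of_ne_zero fun h => by simp [h] at h4
    rw [Nat.mul_div_cancel_left _ hq]
    refine ⟨⟨hm, ?_⟩, hq, ?_⟩
    · exact (Nat.le_mul_of_pos_left m hq).trans h2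
    · rw [Nat.le_div_iff_mul_le hm]
      exact h2
  · rintro ⟨m, q⟩ h
    simp only [mem_sigma, mem_Icc, Nat.mem_divisors] at h ⊢
    obtain ⟨⟨h1, h2⟩, h3, h4⟩ := h
    rw [Nat.le_div_iff_mul_le (by omega)] at h4
    have : 0 < q * m := Nat.mul_pos (by omega) (by omega)
    exact ⟨⟨this, h4⟩, Dvd.intro _ rfl, by omega⟩
  · rintro ⟨n, q⟩ h
    simp only [mem_sigma, mem_Icc, Nat.mem_divisors] at h ⊢
    obtain ⟨⟨h1, h2⟩, h3, h4⟩ := h
    rw [Nat.mul_div_cancel' h3]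
  · rintro ⟨m, q⟩ h
    simp only [mem_sigma, mem_Icc] at h ⊢
    rw [Nat.mul_div_cancel_left _ (by omega)]
  · rintro ⟨n, q⟩ h
    simp only [mem_sigma, mem_Icc, Nat.mem_divisors] at h ⊢
    rw [Nat.mul_div_cancel' h.2.1]

theorem pf_HTI : T_HTI := by
  have hc : 0 < Real.log 4 := Real.log_pos (by norm_num)
  refine ⟨1 + (Real.log 4 + 4), by positivity, fun f hf hfm x hx => ?_⟩
  have hx0 : (0 : ℝ) < x := by exact_mod_cast hx
  have e1 : (∑ n ∈ Icc 1 x, f n) * Real.log x =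
      ∑ n ∈ Icc 1 x, f n * Real.log (x / n) + ∑ n ∈ Icc 1 x, f n * Real.log n := by
    rw [Finset.sum_mul, ← Finset.sum_add_distrib]
    refine Finset.sum_congr rfl fun n hn => ?_
    have hn0 : (n : ℝ) ≠ 0 := by
      have := (mem_Icc.1 hn).1
      exact_mod_cast (by omega : n ≠ 0)
    rw [Real.log_div hx0.ne' hn0]
    ring
  have e2 : ∑ n ∈ Icc 1 x, f n * Real.log (x / n) ≤ x * ∑ n ∈ Icc 1 x, f n / n := by
    rw [Finset.mul_sum]
    refine Finset.sum_le_sum fun n hn => ?_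
    have hn0 : (0 : ℝ) < n := by exact_mod_cast (mem_Icc.1 hn).1
    have h1 : Real.log (x / n) ≤ x / n := by
      have := Real.log_le_sub_one_of_pos (show (0 : ℝ) < x / n by positivity)
      linarith
    calc f n * Real.log (x / n) ≤ f n * (x / n) := mul_le_mul_of_nonneg_left h1 (hf n)
      _ = x * (f n / n) := by ring
  have e3 : ∑ n ∈ Icc 1 x, f n * Real.log n =
      ∑ m ∈ Icc 1 x, ∑ q ∈ Icc 1 (x / m), f (q * m) * vonMangoldt q := by
    rw [← swap (fun n q => f n * vonMangoldt q) x]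
    refine Finset.sum_congr rfl fun n _ => ?_
    rw [← Finset.mul_sum, vonMangoldt_sum]
  have e4 : ∑ m ∈ Icc 1 x, ∑ q ∈ Icc 1 (x / m), f (q * m) * vonMangoldt q ≤
      (Real.log 4 + 4) * x * ∑ m ∈ Icc 1 x, f m / m := by
    rw [Finset.mul_sum]
    refine Finset.sum_le_sum fun m hm => ?_
    have hm1 := (mem_Icc.1 hm).1
    have hm0 : (0 : ℝ) < m := by exact_mod_cast hm1
    have h1 : ∑ q ∈ Icc 1 (x / m), f (q * m) * vonMangoldt q ≤
        f m * ∑ q ∈ Icc 1 (x / m), vonMangoldt q := by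
      rw [Finset.mul_sum]
      refine Finset.sum_le_sum fun q hq => ?_
      exact mul_le_mul_of_nonneg_right (hfm q m (mem_Icc.1 hq).1 hm1) vonMangoldt_nonneg
    have h2 : ∑ q ∈ Icc 1 (x / m), vonMangoldt q = Chebyshev.psi ((x : ℝ) / m) := by
      unfold Chebyshev.psi
      rw [Nat.floor_div_natCast, Nat.floor_natCast]
      rfl
    have h3 := Chebyshev.psi_le_const_mul_self (x := (x : ℝ) / m) (by positivity)
    rw [h2] at h1
    refine h1.trans ((mul_le_mul_of_nonneg_left h3 (hf m)).trans (le_of_eq ?_))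
    ring
  rw [e1, e3]
  calc _ ≤ x * ∑ n ∈ Icc 1 x, f n / n + (Real.log 4 + 4) * x * ∑ m ∈ Icc 1 x, f m / m :=
        add_le_add e2 e4
    _ = _ := by ring

end Pool.Agent.H33.AAP
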