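import Pool.Agent.H72.AAP.Targets
import Pool.Agent.H33.MT.MERT

/-! Row MPR of the board `aap_modules` (MP_3cf473_nt): the sum of the reciprocals of primes. -/

set_option autoImplicit false

open Finset

namespace Pool.Agent.H33.AAP

open Pool.Agent.H72.AAP

theorem pf_MPR : T_MPR := by
  obtain ⟨C, hC⟩ := Pool.Agent.H33.MT.pf_MERT
  refine ⟨2 + 2 * |C|, by positivity, fun t ht => ?_⟩
  have h1 := hC t ht
  unfold Pool.Agent.H89.MT.SS Pool.Agent.H89.MT.pr at h1
  have h2 : ∑ p ∈ (Icc 1 t).filter Nat.Prime, 1 / ((p : ℝ) - 1) ≤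
      2 * ∑ p ∈ (Icc 1 t).filter Nat.Prime, (1 : ℝ) / p := by
    rw [Finset.mul_sum]
    refine Finset.sum_le_sum fun p hp => ?_
    have h3 : (2 : ℝ) ≤ p := by exact_mod_cast (Finset.mem_filter.1 hp).2.two_le
    rw [mul_one_div, div_le_div_iff₀ (by linarith) (by linarith)]
    linarith
  have h3 : 0 ≤ Real.log (Real.log t) := by
    apply Real.log_nonneg
    rw [Real.le_log_iff_exp_le (by exact_mod_cast (by omega : 0 < t))]
    exact Real.exp_one_lt_three.le.trans (by exact_mod_cast ht)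
  have h4 := le_abs_self C
  have h5 : 0 ≤ |C| * Real.log (Real.log t) := by positivity
  nlinarith

end Pool.Agent.H33.AAP
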